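import Pool.Agent.Helper2.SV.GoalsC

/-!
# Project SV (MP_e9db21_co), packet SV-CI
-/

set_option autoImplicit false

namespace Pool.Agent.Helper41.SV

open Pool.Agent.Helper2.SV

theorem goalCI : G_CI := by
  intro V _ G u d hcf hW hF c hc hnc
  -- basic facts
  have cMn : ∀ i, c i ∈ Mn G u := fun i => (hc i).1
  have cadj : ∀ i j, G.Adj (c i) (d j) ↔ (j = i ∨ j = i + 1) := fun i j => (hc i).2 j
  have c_ne_d : ∀ i j, c i ≠ d j := fun i j h => (cMn i).2 (h ▸ hW.spoke j)
  have c_ne_c : ∀ i, c i ≠ c (i + 2) := by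
    intro i h
    have h1 : G.Adj (c i) (d i) := (cadj i i).2 (Or.inl rfl)
    rw [h] at h1
    have h2 := (cadj (i + 2) i).1 h1
    exact absurd h2 ((by decide : ∀ i : Fin 5, ¬ (i = i + 2 ∨ i = i + 2 + 1)) i)
  constructor
  · rintro v hv ⟨j, h0, h1, h2⟩
    have e5 : j + 4 + 1 = j := (by decide : ∀ j : Fin 5, j + 4 + 1 = j) j
    have e4 : j + 2 + 2 = j + 4 := (by decide : ∀ j : Fin 5, j + 2 + 2 = j + 4) j
    have n1 : ¬ G.Adj (c (j + 4)) (d (j + 1)) := fun h =>
      absurd ((cadj _ _).1 h)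
        ((by decide : ∀ j : Fin 5, ¬ (j + 1 = j + 4 ∨ j + 1 = j + 4 + 1)) j)
    have n2 : ¬ G.Adj (c (j + 2)) (d (j + 1)) := fun h =>
      absurd ((cadj _ _).1 h)
        ((by decide : ∀ j : Fin 5, ¬ (j + 1 = j + 2 ∨ j + 1 = j + 2 + 1)) j)
    have v1 : v ≠ c (j + 4) := fun h => n1 (h ▸ h1)
    have v2 : v ≠ c (j + 2) := fun h => n2 (h ▸ h1)
    have a1 : G.Adj v (c (j + 4)) :=
      hF.common v (c (j + 4)) j hv (cMn _) v1 h0 ((cadj _ _).2 (Or.inr e5.symm))
    have a2 : G.Adj v (c (j + 2)) :=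
      hF.common v (c (j + 2)) (j + 2) hv (cMn _) v2 h2 ((cadj _ _).2 (Or.inl rfl))
    have n3 : ¬ G.Adj (c (j + 2)) (c (j + 4)) := by
      have := hnc (j + 2)
      rwa [e4] at this
    have n4 : c (j + 2) ≠ c (j + 4) := by
      have := c_ne_c (j + 2)
      rwa [e4] at this
    rcases hcf v (d (j + 1)) (c (j + 2)) (c (j + 4)) h1 a2 a1 (c_ne_d _ _).symm
      (c_ne_d _ _).symm n4 with h | h | h
    · exact n2 h.symm
    · exact n1 h.symm
    · exact n3 h
  · intro x hux hxd
    by_cases hall : ∀ j, G.Adj x (d j)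
    · exact Or.inl hall
    right
    obtain ⟨i, hi⟩ := not_forall.1 hall
    have x_ne_c : ∀ j, x ≠ c j := fun j h => (cMn j).2 (h ▸ hux)
    have e5 : i + 4 + 1 = i := (by decide : ∀ j : Fin 5, j + 4 + 1 = j) i
    have e34 : i + 3 + 1 = i + 4 := (by decide : ∀ j : Fin 5, j + 3 + 1 = j + 4) i
    have e13 : i + 1 + 2 = i + 3 := (by decide : ∀ j : Fin 5, j + 1 + 2 = j + 3) i
    have e32 : i + 3 + 2 = i := (by decide : ∀ j : Fin 5, j + 3 + 2 = j) i
    have e42 : i + 4 + 2 = i + 1 := (by decide : ∀ j : Fin 5, j + 4 + 2 = j + 1) i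
    have m2 : G.Adj x (d (i + 2)) := (hF.miss x i hux hxd).resolve_left hi
    have m3 : G.Adj x (d (i + 3)) := by
      rcases hF.miss x (i + 3) hux hxd with h | h
      · exact h
      · rw [e32] at h
        exact absurd h hi
    have m14 : G.Adj x (d (i + 4)) ∨ G.Adj x (d (i + 1)) := by
      have := hF.miss x (i + 4) hux hxd
      rwa [e42] at this
    have hnot : ¬ (G.Adj x (d (i + 1)) ∧ G.Adj x (d (i + 4))) := by
      rintro ⟨g1, g4⟩
      have b1 : G.Adj x (c (i + 1)) := by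
        have r1 : G.Adj (d (i + 1)) (d i) := (hW.rim i).symm
        have r2 : G.Adj (d (i + 1)) (c (i + 1)) := ((cadj _ _).2 (Or.inl rfl)).symm
        rcases hcf (d (i + 1)) (d i) x (c (i + 1)) r1 g1.symm r2 (hxd i).symm
          (c_ne_d _ _).symm (x_ne_c _) with h | h | h
        · exact absurd h.symm hi
        · exact absurd ((cadj _ _).1 h.symm)
            ((by decide : ∀ j : Fin 5, ¬ (j = j + 1 ∨ j = j + 1 + 1)) i)
        · exact h
      have b3 : G.Adj x (c (i + 3)) := by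
        have r1 : G.Adj (d (i + 4)) (d i) := by
          have := hW.rim (i + 4)
          rwa [e5] at this
        have r2 : G.Adj (d (i + 4)) (c (i + 3)) := ((cadj _ _).2 (Or.inr e34.symm)).symm
        rcases hcf (d (i + 4)) (d i) x (c (i + 3)) r1 g4.symm r2 (hxd i).symm
          (c_ne_d _ _).symm (x_ne_c _) with h | h | h
        · exact absurd h.symm hi
        · exact absurd ((cadj _ _).1 h.symm)
            ((by decide : ∀ j : Fin 5, ¬ (j = j + 3 ∨ j = j + 3 + 1)) i)
        · exact h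
      have n3 : ¬ G.Adj (c (i + 1)) (c (i + 3)) := by
        have := hnc (i + 1)
        rwa [e13] at this
      have n4 : c (i + 1) ≠ c (i + 3) := by
        have := c_ne_c (i + 1)
        rwa [e13] at this
      rcases hcf x u (c (i + 1)) (c (i + 3)) hux.symm b1 b3 (cMn _).1.symm (cMn _).1.symm n4
        with h | h | h
      · exact (cMn _).2 h
      · exact (cMn _).2 h
      · exact n3 h
    have cases5 : ∀ i k : Fin 5, k = i ∨ k = i + 1 ∨ k = i + 2 ∨ k = i + 3 ∨ k = i + 4 := by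
      decide
    by_cases g1 : G.Adj x (d (i + 1))
    · -- the case `x ~ d (i + 1)`, `x ≁ d (i + 4)`
      have g4 : ¬ G.Adj x (d (i + 4)) := fun h => hnot ⟨g1, h⟩
      refine ⟨i + 1, fun k => ?_⟩
      rcases cases5 i k with rfl | rfl | rfl | rfl | rfl
      · exact iff_of_false hi
          ((by decide : ∀ k : Fin 5, ¬ (k = k + 1 ∨ k = k + 1 + 1 ∨ k = k + 1 + 2)) k)
      · exact iff_of_true g1 (Or.inl rfl)
      · exact iff_of_true m2 (Or.inr (Or.inl
          ((by decide : ∀ k : Fin 5, k + 2 = k + 1 + 1) i)))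
      · exact iff_of_true m3 (Or.inr (Or.inr
          ((by decide : ∀ k : Fin 5, k + 3 = k + 1 + 2) i)))
      · exact iff_of_false g4
          ((by decide : ∀ k : Fin 5,
            ¬ (k + 4 = k + 1 ∨ k + 4 = k + 1 + 1 ∨ k + 4 = k + 1 + 2)) i)
    · have g4 : G.Adj x (d (i + 4)) := m14.resolve_right g1
      refine ⟨i + 2, fun k => ?_⟩
      rcases cases5 i k with rfl | rfl | rfl | rfl | rfl
      · exact iff_of_false hi
          ((by decide : ∀ k : Fin 5, ¬ (k = k + 2 ∨ k = k + 2 + 1 ∨ k = k + 2 + 2)) k)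
      · exact iff_of_false g1
          ((by decide : ∀ k : Fin 5,
            ¬ (k + 1 = k + 2 ∨ k + 1 = k + 2 + 1 ∨ k + 1 = k + 2 + 2)) i)
      · exact iff_of_true m2 (Or.inl rfl)
      · exact iff_of_true m3 (Or.inr (Or.inl
          ((by decide : ∀ k : Fin 5, k + 3 = k + 2 + 1) i)))
      · exact iff_of_true g4 (Or.inr (Or.inr
          ((by decide : ∀ k : Fin 5, k + 4 = k + 2 + 2) i)))

end Pool.Agent.Helper41.SV
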